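import Pool.Agent.K3h88.VR.Stm

/-! Project VR (helper88), brick TRI (helper58). -/

set_option autoImplicit false

namespace Pool.Agent.K3h58.VR

open Finset Pool.Agent.K3h88.VR

theorem mem_tri {n : ℕ} (V : Submodule (ZMod 2) (E n)) (T : Finset (E n)) :
    T ∈ tri V ↔ ∃ x ∈ V, ∃ y : E n, x ≠ 0 ∧ y ≠ 0 ∧ x ≠ y ∧ T = {x, y, x + y} := by
  unfold tri
  simp only [mem_filter, mem_univ, true_and]

theorem card_pow {n : ℕ} (V : Submodule (ZMod 2) (E n)) :
    Nat.card V = 2 ^ Module.finrank (ZMod 2) V := by
  have h := Module.natCard_eq_pow_finrank (K := ZMod 2) (V := V)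
  rw [Nat.card_zmod] at h
  exact h

theorem t_TRI : S_TRI := by
  classical
  intro n d V hV
  constructor
  · have hVc : (univ.filter (fun x : E n => x ∈ V)).card = 2 ^ d := by
      rw [← hV, ← card_pow V, Nat.card_eq_fintype_card, ← Fintype.card_subtype]
    have hE : (univ : Finset (E n)).card = 2 ^ n := by
      rw [card_univ, Fintype.card_fun, ZMod.card, Fintype.card_fin]
    have hsub : tri V ⊆ ((univ.filter (fun x : E n => x ∈ V)) ×ˢ (univ : Finset (E n))).image
        (fun p => ({p.1, p.2, p.1 + p.2} : Finset (E n))) := by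
      intro T hT
      obtain ⟨x, hx, y, -, -, -, rfl⟩ := (mem_tri V T).1 hT
      exact mem_image.2 ⟨(x, y), mem_product.2 ⟨mem_filter.2 ⟨mem_univ _, hx⟩, mem_univ _⟩, rfl⟩
    refine (card_le_card hsub).trans (card_image_le.trans ?_)
    rw [card_product, hVc, hE, pow_add]
  · intro T hT
    obtain ⟨x, -, y, hx, hy, hxy, rfl⟩ := (mem_tri V T).1 hT
    have h2 : ∀ a : E n, a + a = 0 := fun a => by
      funext i
      change a i + a i = 0
      generalize a i = b
      revert b
      decide
    have hne : x + y ≠ 0 := by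
      intro h
      apply hxy
      calc x = x + (y + y) := by rw [h2, add_zero]
        _ = (x + y) + y := by rw [add_assoc]
        _ = y := by rw [h, zero_add]
    have h1 : x ≠ x + y := fun h => hy (by
      have h3 : x + 0 = x + y := by rw [add_zero]; exact h
      exact (add_left_cancel h3).symm)
    have h3 : y ≠ x + y := fun h => hx (by
      have h4 : 0 + y = x + y := by rw [zero_add]; exact h
      exact (add_right_cancel h4).symm)
    refine ⟨?_, ?_⟩
    · rw [card_eq_three]
      exact ⟨x, y, x + y, hxy, h1, h3, rfl⟩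
    · intro h0
      rw [mem_insert, mem_insert, mem_singleton] at h0
      rcases h0 with h0 | h0 | h0
      · exact hx h0.symm
      · exact hy h0.symm
      · exact hne h0.symm

end Pool.Agent.K3h58.VR
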